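import Pool.Agent.Q225.GH.Stm

/-! LOC for project GH (MP_128e7d_lc): the parities at the neighbours are equal. -/

set_option autoImplicit false

namespace Pool.Agent.Q254.GH

open Finset Pool.Agent.TH658.Dg Pool.Agent.Q210.SP Pool.Agent.Q225.GH Pool.Agent.H521R3.BI

theorem eq_of_add {a b : ZMod 2} (h : a + b = 0) : b = a := by
  revert a b; decide

theorem edge_eq {m : ℕ} {v : MQ m} {e e' : ME m} {b b' : Bool}
    (h : (if b then mtgt m e = v else msrc m e = v))
    (h' : (if b' then mtgt m e' = v else msrc m e' = v))
    (hj : (if b then Sum.inl e.1 else Sum.inr e.1 : Pt) =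
      (if b' then Sum.inl e'.1 else Sum.inr e'.1)) : e' = e ∧ b' = b := by
  obtain ⟨k, w⟩ := e
  obtain ⟨k', w'⟩ := e'
  cases b <;> cases b'
  · have h1 : w = v := h
    have h2 : w' = v := h'
    have h3 : k = k' := Sum.inr.inj hj
    subst h3
    exact ⟨by rw [h1, h2], rfl⟩
  · exact absurd hj (by simp)
  · exact absurd hj (by simp)
  · have h1 : sg m k w = v := h
    have h2 : sg m k' w' = v := h'
    have h3 : k = k' := Sum.inl.inj hj
    subst h3
    exact ⟨by rw [(sg m k).injective (h2.trans h1.symm)], rfl⟩

theorem three {ε : Fin 3 → ZMod 2} (h : ∀ i, ∑ y, ε y * vec3 y i = 0) (y : Fin 3) :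
    ε y = ε 2 := by
  have h0 := h 0
  have h1 := h 1
  rw [Fin.sum_univ_three] at h0 h1
  have e00 : vec3 0 0 = 1 := by decide
  have e10 : vec3 1 0 = 0 := by decide
  have e20 : vec3 2 0 = 1 := by decide
  have e01 : vec3 0 1 = 0 := by decide
  have e11 : vec3 1 1 = 1 := by decide
  have e21 : vec3 2 1 = 1 := by decide
  rw [e00, e10, e20, mul_one, mul_one, mul_zero, add_zero] at h0
  rw [e01, e11, e21, mul_one, mul_one, mul_zero, zero_add] at h1
  fin_cases y
  · exact (eq_of_add h0).symm
  · exact (eq_of_add h1).symm
  · rfl

theorem node (m p : ℕ) [NeZero m] (u : Nd m p) (ε : Nd m p → ZMod 2)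
    (hs : ∀ w, ¬ (MB m p).G.Adj u w → ε w = 0)
    (hv : ∀ i : (MB m p).I u, ∑ w, ε w * (MB m p).lam u w i = 0) :
    ∃ s, ∀ w, (MB m p).G.Adj u w → ε w = s := by
  rcases u with v | ⟨e, b⟩ | ⟨v, x⟩ | ⟨v, y⟩ | i
  · -- q v
    refine ⟨ε (Nd.r v 0), ?_⟩
    intro w hw
    rcases w with v' | ⟨e, b⟩ | ⟨v', x⟩ | ⟨v', y⟩ | i
    · exact (hw.elim id id : False).elim
    · have hb : (if b then mtgt m e = v else msrc m e = v) := by
        rcases hw with h | h
        · exact h
        · exact (h : False).elim
      have key : ∑ w, ε w * (MB m p).lam (Nd.q v) w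
          (if b then Sum.inl e.1 else Sum.inr e.1 : Pt) = ε (Nd.r v 0) + ε (Nd.d e b) := by
        rw [Fintype.sum_eq_add (Nd.r v 0 : Nd m p) (Nd.d e b) (by intro h; cases h)]
        · congr 1
          · show ε (Nd.r v 0) * 1 = _
            rw [mul_one]
          · show ε (Nd.d e b) * (if (if b then Sum.inl e.1 else Sum.inr e.1 : Pt) =
              (if b then Sum.inl e.1 else Sum.inr e.1) then 1 else 0) = _
            rw [if_pos rfl, mul_one]
        · rintro w ⟨hw1, hw2⟩
          by_cases hadj : (MB m p).G.Adj (Nd.q v) w
          · rcases w with v' | ⟨e', b'⟩ | ⟨v', x⟩ | ⟨v', y⟩ | i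
            · exact (hadj.elim id id : False).elim
            · have hb' : (if b' then mtgt m e' = v else msrc m e' = v) := by
                rcases hadj with h | h
                · exact h
                · exact (h : False).elim
              have hne : ¬ ((if b then Sum.inl e.1 else Sum.inr e.1 : Pt) =
                  (if b' then Sum.inl e'.1 else Sum.inr e'.1)) := by
                intro heq
                obtain ⟨h1, h2⟩ := edge_eq hb hb' heq
                exact hw2 (by rw [h1, h2])
              show ε (Nd.d e' b') * (if (if b then Sum.inl e.1 else Sum.inr e.1 : Pt) =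
                (if b' then Sum.inl e'.1 else Sum.inr e'.1) then 1 else 0) = 0
              rw [if_neg hne, mul_zero]
            · exfalso
              rcases hadj with h | h
              · have h' : v = v' ∧ x = 0 := h
                obtain ⟨rfl, rfl⟩ := h'
                exact hw1 rfl
              · exact h
            · exact (hadj.elim id id : False).elim
            · exact (hadj.elim id id : False).elim
          · rw [hs w hadj, zero_mul]
      have h1 := hv (if b then Sum.inl e.1 else Sum.inr e.1 : Pt)
      rw [key] at h1
      exact eq_of_add h1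
    · have h' : v = v' ∧ x = 0 := by
        rcases hw with h | h
        · exact h
        · exact (h : False).elim
      obtain ⟨rfl, rfl⟩ := h'
      rfl
    · exact (hw.elim id id : False).elim
    · exact (hw.elim id id : False).elim
  · -- d e b
    have hq : ∀ v', (MB m p).G.Adj (Nd.d e b) (Nd.q v') ↔
        (if b then mtgt m e = v' else msrc m e = v') := fun v' =>
      ⟨fun h => h.elim (fun h => (h : False).elim) id, fun h => Or.inr h⟩
    have hd : ∀ e' b', (MB m p).G.Adj (Nd.d e b) (Nd.d e' b') ↔ e' = e ∧ b' = !b := by
      intro e' b'
      constructor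
      · rintro (h | h)
        · obtain ⟨h1, h2, h3⟩ : e = e' ∧ b = false ∧ b' = true := h
          subst h1 h2 h3
          exact ⟨rfl, rfl⟩
        · obtain ⟨h1, h2, h3⟩ : e' = e ∧ b' = false ∧ b = true := h
          subst h1 h2 h3
          exact ⟨rfl, rfl⟩
      · rintro ⟨rfl, rfl⟩
        cases b
        · exact Or.inl ⟨rfl, rfl, rfl⟩
        · exact Or.inr ⟨rfl, rfl, rfl⟩
    set w0 : MQ m := if b then mtgt m e else msrc m e with hw0
    have hq' : ∀ v', (MB m p).G.Adj (Nd.d e b) (Nd.q v') ↔ v' = w0 := by
      intro v'
      rw [hq, hw0]
      cases b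
      · exact ⟨fun h => (Eq.symm h : v' = msrc m e), fun h => Eq.symm h⟩
      · exact ⟨fun h => (Eq.symm h : v' = mtgt m e), fun h => Eq.symm h⟩
    have key : ∑ w, ε w * (MB m p).lam (Nd.d e b) w () = ε (Nd.q w0) + ε (Nd.d e (!b)) := by
      rw [Fintype.sum_eq_add (Nd.q w0 : Nd m p) (Nd.d e (!b)) (by intro h; cases h)]
      · congr 1
        · show ε (Nd.q w0) * 1 = _
          rw [mul_one]
        · show ε (Nd.d e (!b)) * 1 = _
          rw [mul_one]
      · rintro w ⟨hw1, hw2⟩
        by_cases hadj : (MB m p).G.Adj (Nd.d e b) w
        · exfalso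
          rcases w with v' | ⟨e', b'⟩ | ⟨v', x⟩ | ⟨v', y⟩ | i
          · exact hw1 (by rw [(hq' v').1 hadj])
          · obtain ⟨h1, h2⟩ := (hd e' b').1 hadj
            exact hw2 (by rw [h1, h2])
          · exact (hadj.elim id id : False)
          · exact (hadj.elim id id : False)
          · exact (hadj.elim id id : False)
        · rw [hs w hadj, zero_mul]
    have h1 := hv ()
    rw [key] at h1
    refine ⟨ε (Nd.q w0), ?_⟩
    intro w hadj
    rcases w with v' | ⟨e', b'⟩ | ⟨v', x⟩ | ⟨v', y⟩ | i
    · rw [(hq' v').1 hadj]
    · obtain ⟨h2, h3⟩ := (hd e' b').1 hadj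
      rw [h2, h3]
      exact eq_of_add h1
    · exact (hadj.elim id id : False).elim
    · exact (hadj.elim id id : False).elim
    · exact (hadj.elim id id : False).elim
  · -- r v x
    by_cases hx : x = 0
    · subst hx
      refine ⟨ε (Nd.q v), ?_⟩
      have key : ∀ y : Fin 3, ε (Nd.c v y) = ε (Nd.q v) := by
        intro y
        have key : ∑ w, ε w * (MB m p).lam (Nd.r v 0) w y = ε (Nd.q v) + ε (Nd.c v y) := by
          rw [Fintype.sum_eq_add (Nd.q v : Nd m p) (Nd.c v y) (by intro h; cases h)]
          · congr 1
            · show ε (Nd.q v) * 1 = _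
              rw [mul_one]
            · show ε (Nd.c v y) * (if (0 : Fin 3) = 0 then (if y = y then 1 else 0)
                else vec3 y y) = _
              rw [if_pos rfl, if_pos rfl, mul_one]
          · rintro w ⟨hw1, hw2⟩
            by_cases hadj : (MB m p).G.Adj (Nd.r v 0) w
            · rcases w with v' | ⟨e', b'⟩ | ⟨v', x⟩ | ⟨v', y'⟩ | i
              · exfalso
                rcases hadj with h | h
                · exact h
                · exact hw1 (by rw [(h : v' = v ∧ (0 : Fin 3) = 0).1])
              · exact (hadj.elim id id : False).elim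
              · exact (hadj.elim id id : False).elim
              · have h' : v = v' := by
                  rcases hadj with h | h
                  · exact h
                  · exact (h : False).elim
                subst h'
                have hne : ¬ y = y' := fun h => hw2 (by rw [h])
                show ε (Nd.c v y') * (if (0 : Fin 3) = 0 then (if y = y' then 1 else 0)
                  else vec3 y' y) = 0
                rw [if_pos rfl, if_neg hne, mul_zero]
              · exact (hadj.elim id id : False).elim
            · rw [hs w hadj, zero_mul]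
        have h1 := hv y
        rw [key] at h1
        exact eq_of_add h1
      intro w hadj
      rcases w with v' | ⟨e', b'⟩ | ⟨v', x⟩ | ⟨v', y'⟩ | i
      · rcases hadj with h | h
        · exact (h : False).elim
        · rw [(h : v' = v ∧ (0 : Fin 3) = 0).1]
      · exact (hadj.elim id id : False).elim
      · exact (hadj.elim id id : False).elim
      · have h' : v = v' := by
          rcases hadj with h | h
          · exact h
          · exact (h : False).elim
        subst h'
        exact key y'
      · exact (hadj.elim id id : False).elim
    · refine ⟨ε (Nd.c v 2), ?_⟩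
      have key : ∀ i : Fin 3, ∑ y, ε (Nd.c v y) * vec3 y i = 0 := by
        intro i
        rw [← hv i]
        refine Fintype.sum_of_injective (fun y : Fin 3 => (Nd.c v y : Nd m p))
          (fun y y' h => by cases h; rfl) _ _ ?_ ?_
        · intro w hw
          by_cases hadj : (MB m p).G.Adj (Nd.r v x) w
          · exfalso
            rcases w with v' | ⟨e', b'⟩ | ⟨v', x'⟩ | ⟨v', y'⟩ | i
            · rcases hadj with h | h
              · exact h
              · exact hx (h : v' = v ∧ x = 0).2
            · exact (hadj.elim id id : False)
            · exact (hadj.elim id id : False)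
            · have h' : v = v' := by
                rcases hadj with h | h
                · exact h
                · exact (h : False).elim
              subst h'
              exact hw ⟨y', rfl⟩
            · exact (hadj.elim id id : False)
          · rw [hs w hadj, zero_mul]
        · intro y
          show ε (Nd.c v y) * vec3 y i = ε (Nd.c v y) * (if x = 0 then (if i = y then 1 else 0)
            else vec3 y i)
          rw [if_neg hx]
      intro w hadj
      rcases w with v' | ⟨e', b'⟩ | ⟨v', x'⟩ | ⟨v', y'⟩ | i
      · exfalso
        rcases hadj with h | h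
        · exact h
        · exact hx (h : v' = v ∧ x = 0).2
      · exact (hadj.elim id id : False).elim
      · exact (hadj.elim id id : False).elim
      · have h' : v = v' := by
          rcases hadj with h | h
          · exact h
          · exact (h : False).elim
        subst h'
        exact three (ε := fun y => ε (Nd.c v y)) key y'
      · exact (hadj.elim id id : False).elim
  · -- c v y
    refine ⟨ε (Nd.r v 2), ?_⟩
    have key : ∀ i : Fin 3, ∑ x, ε (Nd.r v x) * vec3 x i = 0 := by
      intro i
      rw [← hv i]
      refine Fintype.sum_of_injective (fun x : Fin 3 => (Nd.r v x : Nd m p))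
        (fun y y' h => by cases h; rfl) _ _ ?_ ?_
      · intro w hw
        by_cases hadj : (MB m p).G.Adj (Nd.c v y) w
        · exfalso
          rcases w with v' | ⟨e', b'⟩ | ⟨v', x'⟩ | ⟨v', y'⟩ | i
          · exact (hadj.elim id id : False)
          · exact (hadj.elim id id : False)
          · have h' : v' = v := by
              rcases hadj with h | h
              · exact (h : False).elim
              · exact h
            subst h'
            exact hw ⟨x', rfl⟩
          · exact (hadj.elim id id : False)
          · exact (hadj.elim id id : False)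
        · rw [hs w hadj, zero_mul]
      · intro x
        rfl
    intro w hadj
    rcases w with v' | ⟨e', b'⟩ | ⟨v', x'⟩ | ⟨v', y'⟩ | i
    · exact (hadj.elim id id : False).elim
    · exact (hadj.elim id id : False).elim
    · have h' : v' = v := by
        rcases hadj with h | h
        · exact (h : False).elim
        · exact h
      subst h'
      exact three (ε := fun x => ε (Nd.r v' x)) key x'
    · exact (hadj.elim id id : False).elim
    · exact (hadj.elim id id : False).elim
  · -- z i
    refine ⟨0, ?_⟩
    intro w hadj
    rcases w with v' | ⟨e', b'⟩ | ⟨v', x'⟩ | ⟨v', y'⟩ | i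
    all_goals exact (hadj.elim id id : False).elim

theorem loc : S_LOC := by
  intro m p _ b W _ _ F φ t hc
  have key : ∀ a : W, ∃ s, ∀ w, (MB m p).G.Adj (φ a) w →
      (∑ b' : W with φ b' = w, t a b') = s := by
    intro a
    refine node m p (φ a) (fun w => ∑ b' : W with φ b' = w, t a b') ?_ ?_
    · intro w hw
      refine Finset.sum_eq_zero fun b' hb' => ?_
      rw [Finset.mem_filter] at hb'
      by_contra h0
      exact hw (hb'.2 ▸ hc.adj a b' (hc.supp a b' h0))
    · intro i
      rw [← hc.van a i, ← Finset.sum_fiberwise (s := univ) (g := φ)]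
      refine Finset.sum_congr rfl fun w _ => ?_
      rw [Finset.sum_mul]
      refine Finset.sum_congr rfl fun b' hb' => ?_
      rw [(Finset.mem_filter.mp hb').2]
  choose S hS using key
  exact ⟨S, hS⟩

end Pool.Agent.Q254.GH

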